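import Pool.Agent.Helper39.SAG.Defs
import Pool.Agent.Helper75.AG.Trap
import Pool.Agent.Helper88.AG.Cells

/-!
# Trapping of the non separated translations (owner: helper88, from `Helper88/AG/Sep.lean`)
-/

set_option autoImplicit false
open MeasureTheory Filter Topology ProbabilityTheory

namespace Helper39.SAG

open Helper35.AG (Tor idx ent conv Inv)

theorem thick_eq {E : Set Tor} (hE : IsClosed E) (t : Tor) {r : ℝ} (hr : 0 ≤ r) :
    Metric.cthickening r ((fun x => x - t) '' E) = Pool.Agent.Helper88.AG.Nb E t r := by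
  have hK : IsCompact ((fun x => x - t) '' E) :=
    hE.isCompact.image (continuous_id.sub continuous_const)
  rw [hK.cthickening_eq_biUnion_closedBall hr]
  ext x
  simp only [Set.mem_iUnion, Set.mem_image, Metric.mem_closedBall, exists_prop,
    Pool.Agent.Helper88.AG.Nb, Set.mem_setOf_eq]
  constructor
  · rintro ⟨_, ⟨e, he, rfl⟩, hx⟩
    refine ⟨e, he, ?_⟩
    rw [dist_eq_norm] at hx
    have e1 : x + t - e = x - (e - t) := by abel
    rw [e1]
    exact hx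
  · rintro ⟨e, he, hx⟩
    refine ⟨e - t, ⟨e, he, rfl⟩, ?_⟩
    rw [dist_eq_norm]
    have e1 : x + t - e = x - (e - t) := by abel
    rwa [e1] at hx

theorem sep_iff {μ : Measure Tor} {Lam h : ℝ} {t : Tor} {r : ℝ} (hr : 0 ≤ r) :
    Sep μ Lam h t r ↔ Pool.Agent.Helper88.AG.Sep μ Lam h t r := by
  constructor
  · rintro ⟨E, hE, hlt⟩
    rw [thick_eq hE t hr] at hlt
    exact ⟨E, hE, hlt⟩
  · rintro ⟨E, hE, hlt⟩
    rw [← thick_eq hE t hr] at hlt
    exact ⟨E, hE, hlt⟩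

/-- **Trapping.** -/
theorem trap {μs : ℕ → ProbabilityMeasure Tor} {μ : ProbabilityMeasure Tor}
    (hμ : Tendsto μs atTop (𝓝 μ)) (hi : ∀ k, Inv (μs k : Measure Tor))
    (hne : (μ : Measure Tor) ≠ volume) :
    ∃ h : ℝ, 0 < h ∧ h < 1 ∧ ∀ Lam : ℝ, 0 ≤ Lam → ∃ F : Finset Tor, ∃ B : ℝ, 0 < B ∧
      ∀ᶠ k in atTop, ∀ (t : Tor) (r : ℝ), 0 < r →
        ¬ Sep (μs k : Measure Tor) Lam h t r → ∃ f ∈ F, ‖t - f‖ ≤ B * r := by
  have hinv : Inv (μ : Measure Tor) := Helper75.AG.Inv.lim hμ hi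
  obtain ⟨h, h0, h1, hex⟩ := Pool.Agent.Helper88.AG.exists_h hinv hne
  refine ⟨h, h0, h1, fun Lam hL => ?_⟩
  obtain ⟨F, B, hF, hB, hev⟩ := Pool.Agent.Helper88.AG.trap hμ hi hinv hL (hex Lam)
  refine ⟨hF.toFinset, B, hB, ?_⟩
  filter_upwards [hev] with k hk t r hr hns
  rw [sep_iff hr.le] at hns
  obtain ⟨f, hf, hft⟩ := hk t r hr hns
  exact ⟨f, hF.mem_toFinset.2 hf, hft⟩

/-- separated translates give separated cells -/
theorem cells_of_sep' (μ : Measure Tor) [IsProbabilityMeasure μ] (K : ℕ) {Lam h r : ℝ}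
    (hL : 0 < Lam) (h1 : h ≤ 1) {y z : Tor} (hs : Sep μ Lam h (z - y) r) {s : ℝ} (hs0 : 0 ≤ s)
    (hr : s + 1 / 2 ^ K ≤ r) :
    ∃ S : Finset (Fin (2 ^ K)), 1 - h ≤ ∑ i ∈ S, pr μ K y i ∧
      ∀ y' ∈ Metric.closedBall z s, ∑ i ∈ S, pr μ K y' i ≤ 1 / Lam := by
  classical
  have hr0 : 0 ≤ r := by
    have : (0 : ℝ) ≤ 1 / 2 ^ K := by positivity
    linarith
  have h2 : Pool.Agent.Helper88.AG.Sep μ Lam h (z - y) (s + 1 / 2 ^ K) :=
    Pool.Agent.Helper88.AG.Sep.mono hL.le (by simpa using hr) ((sep_iff hr0).1 hs)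
  obtain ⟨S, hS, h3, h4⟩ := Pool.Agent.Helper88.AG.cells_of_sep μ hL h2
  have key : ∀ y : Tor, ∑ i ∈ Finset.univ.filter (fun i : Fin (2 ^ K) => (i : ℕ) ∈ S), pr μ K y i =
      ∑ i ∈ S, μ.real {x | idx K (x + y) = i} := by
    intro y
    have e1 : ∑ i ∈ S, μ.real {x | idx K (x + y) = i} = ∑ i ∈ Finset.range (2 ^ K),
        if i ∈ S then μ.real {x | idx K (x + y) = i} else 0 := by
      rw [← Finset.sum_filter, Finset.filter_mem_eq_inter, Finset.inter_eq_right.2 hS]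
    rw [e1, Finset.sum_range, Finset.sum_filter]
    rfl
  refine ⟨Finset.univ.filter (fun i : Fin (2 ^ K) => (i : ℕ) ∈ S), ?_, fun y' hy' => ?_⟩
  · rw [key]
    exact h3
  · rw [key]
    refine (h4 y' hy').trans ?_
    gcongr

end Helper39.SAG
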