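import Pool.Agent.Helper39.SAG.Core
import Pool.Agent.Helper39.SAG.Trap
import Pool.Agent.Helper75.AG.PopUnif
import Pool.Agent.Helper17.TranslM

/-!
# Strong additive growth
-/

set_option autoImplicit false
open MeasureTheory Filter Topology ProbabilityTheory

namespace Helper39.SAG

open Helper35.AG (Tor idx ent conv Inv)

/-- **Strong additive growth.**  By contradiction: `μ k`, `ν k`, `K k`, `m k` bad for
`η = 1 / (k + 1)`; a subsequence has `m k = m` and `μ k` convergent (`ProbabilityMeasure Tor` is compact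
and metrizable) with limit `μ ≠ volume` as `ε ≤ ‖μ̂(m)‖`; `trap` and `core`. -/
theorem sag (C : ℝ) {ε : ℝ} (hε : 0 < ε) :
    ∃ η : ℝ, 0 < η ∧ ∀ (μ ν : Measure Tor) [IsProbabilityMeasure μ] [IsProbabilityMeasure ν]
      (K : ℕ), Inv μ → (∀ i < 2 ^ K, ν.real {y | idx K y = i} ≤ η) →
      ent (conv μ ν) K ≤ ent μ K + C →
      ∀ m : ℕ, 1 ≤ m → (m : ℝ) ≤ 1 / ε → ‖∫ x, fourier (m : ℤ) x ∂μ‖ < ε := by
  by_contra hcon
  push Not at hcon
  have hpos : ∀ n : ℕ, (0 : ℝ) < 1 / ((n : ℝ) + 1) := fun n => by positivity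
  choose μ ν hμp hνp K hinv hcell hent m hm1 hm2 hbad using fun n : ℕ =>
    hcon (1 / ((n : ℝ) + 1)) (hpos n)
  set M : ℕ → ProbabilityMeasure Tor := fun n => ⟨μ n, hμp n⟩ with hM
  have hmM : ∀ n, m n ≤ ⌊1 / ε⌋₊ := fun n => Nat.le_floor (hm2 n)
  have hcomp : IsCompact ((Set.Iic ⌊1 / ε⌋₊ : Set ℕ) ×ˢ (Set.univ : Set (ProbabilityMeasure Tor))) :=
    (Set.finite_Iic _).isCompact.prod isCompact_univ
  obtain ⟨⟨m0, μ0⟩, -, φ, hφ, hlim⟩ := hcomp.tendsto_subseq (x := fun n => (m n, M n))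
    (fun n => ⟨hmM n, Set.mem_univ _⟩)
  have hlim1 : Tendsto (fun n => m (φ n)) atTop (𝓝 m0) := (continuous_fst.tendsto _).comp hlim
  have hlim2 : Tendsto (M ∘ φ) atTop (𝓝 μ0) := (continuous_snd.tendsto _).comp hlim
  have hev1 : ∀ᶠ n in atTop, m (φ n) = m0 := by
    rw [nhds_discrete] at hlim1
    exact tendsto_pure.1 hlim1
  have hm01 : 1 ≤ m0 := by
    obtain ⟨n, hn⟩ := hev1.exists
    rw [← hn]
    exact hm1 _
  have hfour := Helper75.AG.tendsto_fourier hlim2 (m0 : ℤ)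
  have hge : ε ≤ ‖∫ x, fourier (m0 : ℤ) x ∂(μ0 : Measure Tor)‖ := by
    refine ge_of_tendsto hfour.norm ?_
    filter_upwards [hev1] with n hn
    have := hbad (φ n)
    rw [hn] at this
    exact this
  have hne : (μ0 : Measure Tor) ≠ volume := by
    intro h0
    rw [h0, Helper17.TranslM.integral_fourier_vol (by exact_mod_cast Nat.one_le_iff_ne_zero.1 hm01),
      norm_zero] at hge
    linarith
  obtain ⟨h, -, h1, htrap⟩ := trap hlim2 (fun k => hinv (φ k)) hne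
  obtain ⟨Lam, hLam, hcore⟩ := core C h1
  obtain ⟨F, B, hB, hev2⟩ := htrap Lam hLam
  obtain ⟨η, hη, hfin⟩ := hcore m0 hm01 ε hε F B hB
  have hev3 : ∀ᶠ n in atTop, 1 / (((φ n : ℕ) : ℝ) + 1) < η :=
    (tendsto_one_div_add_atTop_nhds_zero_nat.comp hφ.tendsto_atTop).eventually_lt_const hη
  obtain ⟨n, ⟨hn1, hn2⟩, hn3⟩ := ((hev1.and hev2).and hev3).exists
  have hbn := hbad (φ n)
  rw [hn1] at hbn
  have := hμp (φ n)
  have := hνp (φ n)
  exact hfin (μ (φ n)) (ν (φ n)) (K (φ n)) (hinv (φ n)) hbn hn2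
    (fun i hi => (hcell (φ n) i hi).trans hn3.le) (hent (φ n))

end Helper39.SAG
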