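import Pool.Agent.Helper40.AG.Ruzsa
import Pool.Agent.Helper97.SAG.Decr

/-!
# Growth for measures which are not purely atomic

The growth of entropy is concave in `ν`, so it is at least the mass of the continuous part of `ν`
times the growth for the normalised continuous part, up to `log 2`.
-/

set_option autoImplicit false
open MeasureTheory Filter Topology ProbabilityTheory

namespace Helper39.SAG

open Helper35.AG (Tor idx ent conv Inv)

/-- entropy of a convolution is concave in the second measure, up to `log 2` for the second part -/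
theorem growth_cond_le (μ ν : Measure Tor) [IsProbabilityMeasure μ] [IsProbabilityMeasure ν]
    {B : Set Tor} (hB : MeasurableSet B) (h0 : ν B ≠ 0) (K : ℕ) :
    ν.real B * (ent (conv μ (ν[|B])) K - ent μ K) ≤ ent (conv μ ν) K - ent μ K + Real.log 2 := by
  have hl : 0 ≤ Real.log 2 := Real.log_nonneg (by norm_num)
  have hp1 : IsProbabilityMeasure (ν[|B]) := cond_isProbabilityMeasure h0
  have hle : ν.real B ≤ 1 := measureReal_le_one
  have hge : 0 ≤ ν.real B := measureReal_nonneg
  have hI : ∀ (ρ : Measure Tor) [IsProbabilityMeasure ρ] (i : ℕ),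
      Integrable (fun y : Tor => μ.real {x | idx K (x + y) = i}) ρ := fun ρ _ i =>
    Integrable.of_bound (Helper35.AG.measurable_real μ
      (Helper35.AG.measurableSet_idx K i)).aestronglyMeasurable 1 (Eventually.of_forall fun y => by
        rw [Real.norm_eq_abs, abs_of_nonneg measureReal_nonneg]
        exact measureReal_le_one)
  have hcell : ∀ (ρ : Measure Tor) [IsProbabilityMeasure ρ] (i : ℕ),
      (conv μ ρ).real {x | idx K x = i} = ∫ y, μ.real {x | idx K (x + y) = i} ∂ρ := fun ρ _ i =>
    Helper35.AG.conv_real μ ρ (Helper35.AG.measurableSet_idx K i)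
  by_cases hc : ν Bᶜ = 0
  · have h1 : ν.real B = 1 := by
      have := probReal_compl_eq_one_sub (μ := ν) hB
      rw [measureReal_def, hc] at this
      simp at this
      linarith
    have h2 : ∀ i : ℕ, (conv μ ν).real {x | idx K x = i} =
        (conv μ (ν[|B])).real {x | idx K x = i} := by
      intro i
      rw [hcell, hcell, Pool.Agent.Helper97.SAG.integral_split ν hB _ (hI ν i), h1]
      ring
    have h3 : ent (conv μ ν) K = ent (conv μ (ν[|B])) K := by
      unfold ent
      exact Finset.sum_congr rfl fun i _ => by rw [h2 i]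
    rw [h1, h3]
    linarith
  · have hp2 : IsProbabilityMeasure (ν[|Bᶜ]) := cond_isProbabilityMeasure hc
    have h2 : ∀ i : ℕ, (conv μ ν).real {x | idx K x = i} =
        ν.real B * (conv μ (ν[|B])).real {x | idx K x = i} +
          (1 - ν.real B) * (conv μ (ν[|Bᶜ])).real {x | idx K x = i} := by
      intro i
      rw [hcell, hcell, hcell]
      exact Pool.Agent.Helper97.SAG.integral_split ν hB _ (hI ν i)
    have h3 : ν.real B * ent (conv μ (ν[|B])) K + (1 - ν.real B) * ent (conv μ (ν[|Bᶜ])) K ≤
        ent (conv μ ν) K := by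
      unfold ent
      rw [Finset.mul_sum, Finset.mul_sum, ← Finset.sum_add_distrib]
      refine Finset.sum_le_sum fun i _ => ?_
      rw [h2 i]
      have h4 := Real.concaveOn_negMulLog.2
        (show (conv μ (ν[|B])).real {x | idx K x = i} ∈ Set.Ici (0 : ℝ) from measureReal_nonneg)
        (show (conv μ (ν[|Bᶜ])).real {x | idx K x = i} ∈ Set.Ici (0 : ℝ) from measureReal_nonneg)
        hge (show 0 ≤ 1 - ν.real B by linarith) (by ring)
      simpa only [smul_eq_mul] using h4
    have h5 := Helper40.AG.ent_conv_ge μ (ν[|Bᶜ]) K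
    nlinarith

/-- **Not purely atomic measures.** -/
theorem not_atomic (μ ν : Measure Tor) [IsProbabilityMeasure μ] [IsProbabilityMeasure ν]
    (hν : ∀ A : Set Tor, A.Countable → ν Aᶜ ≠ 0) :
    ∃ ν' : Measure Tor, IsProbabilityMeasure ν' ∧ (∀ x, ν' {x} = 0) ∧ ∃ a : ℝ, 0 < a ∧
      ∀ K, a * (ent (conv μ ν') K - ent μ K) ≤ ent (conv μ ν) K - ent μ K + Real.log 2 := by
  set At : Set Tor := {x | 0 < ν {x}} with hAt
  have hcount : At.Countable :=
    Measure.countable_meas_pos_of_disjoint_iUnion (μ := ν) (As := fun x : Tor => {x})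
      (fun x => measurableSet_singleton x)
      (fun x y hxy => Set.disjoint_singleton.2 hxy)
  have hBm : MeasurableSet Atᶜ := hcount.measurableSet.compl
  have hB : ν Atᶜ ≠ 0 := hν At hcount
  refine ⟨ν[|Atᶜ], cond_isProbabilityMeasure hB, fun x => ?_, ν.real Atᶜ, ?_, fun K =>
    growth_cond_le μ ν hBm hB K⟩
  · rw [cond_apply hBm]
    by_cases hx : x ∈ At
    · have : Atᶜ ∩ {x} = ∅ := by
        rw [Set.inter_singleton_eq_empty]
        exact fun h => h hx
      rw [this]
      simp
    · have h1 : ν {x} = 0 := by
        rw [hAt] at hx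
        simpa using hx
      have h2 : ν (Atᶜ ∩ {x}) = 0 := measure_mono_null Set.inter_subset_right h1
      rw [h2, mul_zero]
  · rw [measureReal_def]
    exact ENNReal.toReal_pos hB (measure_ne_top _ _)

end Helper39.SAG
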