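import Pool.Agent.Helper39.SAG.Defs
import Pool.Agent.Helper26.AG.Bin

/-!
# End of the proof (owner: helper39)
-/

set_option autoImplicit false
open MeasureTheory Filter Topology ProbabilityTheory

namespace Helper39.SAG

open Helper35.AG (Tor idx ent conv Inv)

/-- the mass of a set of cells -/
theorem sum_pr (μ : Measure Tor) [IsProbabilityMeasure μ] (K : ℕ) (y : Tor)
    (S : Finset (Fin (2 ^ K))) :
    ∑ i ∈ S, pr μ K y i = μ.real {x | ∃ i ∈ S, idx K (x + y) = i} := by
  unfold pr
  rw [← measureReal_biUnion_finset]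
  · congr 1
    ext x
    simp
  · intro i _ j _ hij
    refine Set.disjoint_left.2 fun x hx hx' => hij ?_
    have h1 : idx K (x + y) = i := hx
    have h2 : idx K (x + y) = j := hx'
    exact Fin.ext (h1.symm.trans h2)
  · exact fun i _ => Helper35.AG.measurableSet_shift K i y

/-- separated translations give separated cells -/
theorem cells_of_sep (μ : Measure Tor) [IsProbabilityMeasure μ] (K : ℕ) {Lam h r : ℝ}
    (hL : 0 < Lam) (h1 : h ≤ 1) {y z : Tor} (hs : Sep μ Lam h (z - y) r) {s : ℝ}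
    (hr : s + 1 / 2 ^ K ≤ r) :
    ∃ S : Finset (Fin (2 ^ K)), 1 - h ≤ ∑ i ∈ S, pr μ K y i ∧
      ∀ y' ∈ Metric.closedBall z s, ∑ i ∈ S, pr μ K y' i ≤ 1 / Lam := by
  classical
  obtain ⟨E, hE, hlt⟩ := hs
  have hM0 : 0 ≤ μ.real (Metric.cthickening r ((fun x => x - (z - y)) '' E)) := measureReal_nonneg
  have hE0 : 0 ≤ μ.real Eᶜ := measureReal_nonneg
  refine ⟨Finset.univ.filter fun i : Fin (2 ^ K) => ∃ x ∈ E, idx K (x + y) = i, ?_, ?_⟩
  · rw [sum_pr]
    have hsub : E ⊆ {x | ∃ i ∈ (Finset.univ.filter fun i : Fin (2 ^ K) =>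
        ∃ x ∈ E, idx K (x + y) = i), idx K (x + y) = i} := by
      intro x hx
      refine ⟨⟨idx K (x + y), Helper35.AG.idx_lt K _⟩, ?_, rfl⟩
      rw [Finset.mem_filter]
      exact ⟨Finset.mem_univ _, x, hx, rfl⟩
    have h2 := measureReal_mono (μ := μ) hsub
    have h3 := probReal_compl_eq_one_sub (μ := μ) hE.measurableSet
    have h4 : 0 ≤ Lam * μ.real (Metric.cthickening r ((fun x => x - (z - y)) '' E)) := by
      positivity
    linarith
  · intro y' hy'
    rw [Metric.mem_closedBall, dist_eq_norm] at hy'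
    rw [sum_pr]
    have hsub : {x | ∃ i ∈ (Finset.univ.filter fun i : Fin (2 ^ K) =>
        ∃ x ∈ E, idx K (x + y) = i), idx K (x + y') = i} ⊆
        Metric.cthickening r ((fun x => x - (z - y)) '' E) := by
      rintro x' ⟨i, hi, hxi⟩
      rw [Finset.mem_filter] at hi
      obtain ⟨-, x, hx, hxi'⟩ := hi
      refine Metric.mem_cthickening_of_dist_le x' (x - (z - y)) r _ ⟨x, hx, rfl⟩ ?_
      have h5 := Helper35.AG.norm_sub_le_of_idx (hxi.trans hxi'.symm)
      rw [dist_eq_norm]
      have e : x' - (x - (z - y)) = (x' + y' - (x + y)) + (z - y') := by abel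
      rw [e]
      refine (norm_add_le _ _).trans ?_
      rw [← norm_neg (z - y'), neg_sub]
      linarith
    refine (measureReal_mono (μ := μ) hsub).trans ?_
    rw [le_div_iff₀ hL]
    nlinarith

/-- **Step 5.** -/
theorem step5 (μ ν : Measure Tor) [IsProbabilityMeasure μ] [IsProbabilityMeasure ν] (K : ℕ)
    {C c Lam γ ξ : ℝ} (hc : 0 < c) (hL : 4 ≤ c * Lam)
    (hJ : inf ν (pr μ K) ≤ C) (hF : Flat ν (pr μ K) γ ξ) (hξ : ξ ≤ 1 / Lam)
    {A G : Set Tor} (hA : MeasurableSet A) (hγ : 0 < γ) (hAγ : γ ≤ ν.real A)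
    (hG : MeasurableSet G) (hG2 : 1 / 2 ≤ ν.real G)
    (hS : ∀ y ∈ G, ∃ S : Finset (Fin (2 ^ K)), c ≤ ∑ i ∈ S, pr μ K y i ∧
      ∀ y' ∈ A, ∑ i ∈ S, pr μ K y' i ≤ 1 / Lam) :
    c / 4 * Real.log (c * Lam / 4) ≤ C + Real.log 2 := by
  classical
  have hLam : 0 < Lam := by
    by_contra h
    push Not at h
    nlinarith
  set q : Fin (2 ^ K) → ℝ := fun i => ∫ y, pr μ K y i ∂ν with hq
  have hq0 : ∀ i, 0 ≤ q i := fun i => integral_nonneg fun y => pr_nonneg μ K y i
  set θ : ℝ := 4 / (c * Lam) with hθ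
  have hcL : 0 < c * Lam := by positivity
  have hθ0 : 0 < θ := by positivity
  have hθ1 : θ ≤ 1 := by
    rw [hθ, div_le_one hcL]
    exact hL
  set g : Tor → Fin (2 ^ K) → ℝ := fun y i => if q i ≤ θ * pr μ K y i then 1 else 0 with hg
  have hgm : ∀ i, Measurable fun y => g y i := fun i =>
    Measurable.ite (measurableSet_le measurable_const (measurable_const.mul (pr_meas μ K i)))
      measurable_const measurable_const
  have hg0 : ∀ y i, 0 ≤ g y i := fun y i => by
    simp only [hg]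
    split_ifs <;> norm_num
  have hg1 : ∀ y i, g y i ≤ 1 := fun y i => by
    simp only [hg]
    split_ifs <;> norm_num
  have ip : ∀ (ρ : Measure Tor) [IsProbabilityMeasure ρ] (i : Fin (2 ^ K)),
      Integrable (fun y => pr μ K y i) ρ := fun ρ _ i =>
    Integrable.of_bound (pr_meas μ K i).aestronglyMeasurable 1 (Eventually.of_forall fun y => by
      rw [Real.norm_eq_abs, abs_of_nonneg (pr_nonneg μ K y i)]
      exact pr_le_one μ K y i)
  have igp : Integrable (fun y => ∑ i, g y i * pr μ K y i) ν := by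
    refine integrable_finsetSum _ fun i _ => ?_
    refine Integrable.of_bound ((hgm i).mul (pr_meas μ K i)).aestronglyMeasurable 1
      (Eventually.of_forall fun y => ?_)
    rw [Real.norm_eq_abs, abs_of_nonneg (mul_nonneg (hg0 y i) (pr_nonneg μ K y i))]
    exact mul_le_one₀ (hg1 y i) (pr_nonneg μ K y i) (pr_le_one μ K y i)
  have hQ : ∫ y, ∑ i, g y i * (∫ z, pr μ K z i ∂ν) ∂ν ≤ θ := by
    have h1 : ∀ y, ∑ i, g y i * (∫ z, pr μ K z i ∂ν) ≤ θ := by
      intro y
      calc ∑ i, g y i * (∫ z, pr μ K z i ∂ν) ≤ ∑ i, θ * pr μ K y i := by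
            refine Finset.sum_le_sum fun i _ => ?_
            simp only [hg]
            split_ifs with h
            · rw [one_mul]
              exact h
            · rw [zero_mul]
              exact mul_nonneg hθ0.le (pr_nonneg μ K y i)
        _ = θ := by rw [← Finset.mul_sum, pr_sum, mul_one]
    have h2 : Integrable (fun y => ∑ i, g y i * (∫ z, pr μ K z i ∂ν)) ν := by
      refine integrable_finsetSum _ fun i _ => ?_
      refine Integrable.of_bound ((hgm i).mul_const _).aestronglyMeasurable (q i)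
        (Eventually.of_forall fun y => ?_)
      rw [Real.norm_eq_abs, abs_of_nonneg (mul_nonneg (hg0 y i) (hq0 i))]
      exact mul_le_of_le_one_left (hq0 i) (hg1 y i)
    have h3 := integral_mono h2 (integrable_const θ) h1
    simpa using h3
  have key := Helper26.AG.bin' ν (pr μ K) (pr_meas μ K) (pr_nonneg μ K) (pr_sum μ K) C hJ g hgm
    hg0 hg1 θ hθ0 hθ1 hQ
  -- masses for the mean
  have hqS : ∀ S : Finset (Fin (2 ^ K)), (∀ y' ∈ A, ∑ i ∈ S, pr μ K y' i ≤ 1 / Lam) →
      ∑ i ∈ S, q i ≤ 2 / Lam := by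
    intro S hS'
    have hνA : ν A ≠ 0 := by
      intro h0
      have : ν.real A = 0 := by rw [measureReal_def, h0]; rfl
      linarith
    have : IsProbabilityMeasure (ν[|A]) := cond_isProbabilityMeasure hνA
    have h1 := hF A hA hAγ
    have h2 : ∑ i ∈ S, |∫ y, pr μ K y i ∂(ν[|A]) - ∫ y, pr μ K y i ∂ν| ≤ ξ :=
      (Finset.sum_le_sum_of_subset_of_nonneg (Finset.subset_univ S) fun i _ _ =>
        abs_nonneg _).trans h1
    have h3 : ∑ i ∈ S, q i - ∑ i ∈ S, ∫ y, pr μ K y i ∂(ν[|A]) ≤ ξ := by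
      rw [← Finset.sum_sub_distrib]
      refine (Finset.sum_le_sum fun i _ => ?_).trans h2
      rw [abs_sub_comm]
      exact le_abs_self _
    have h4 : ∑ i ∈ S, ∫ y, pr μ K y i ∂(ν[|A]) ≤ 1 / Lam := by
      rw [← integral_finsetSum _ fun i _ => ip (ν[|A]) i]
      have h5 : ∀ᵐ y ∂(ν[|A]), ∑ i ∈ S, pr μ K y i ≤ 1 / Lam := by
        have h6 : ∀ᵐ y ∂(ν[|A]), y ∈ A := ae_cond_mem hA
        filter_upwards [h6] with y hy
        exact hS' y hy
      have h7 := integral_mono_ae (integrable_finsetSum _ fun i _ => ip (ν[|A]) i)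
        (integrable_const (1 / Lam)) h5
      simpa using h7
    have h8 : 2 / Lam = 1 / Lam + 1 / Lam := by ring
    linarith
  have hP : c / 4 ≤ ∫ y, ∑ i, g y i * pr μ K y i ∂ν := by
    have h1 : ∀ y ∈ G, c / 2 ≤ ∑ i, g y i * pr μ K y i := by
      intro y hy
      obtain ⟨S, hS1, hS2⟩ := hS y hy
      have h2 := hqS S hS2
      have h3 : ∑ i ∈ S, (pr μ K y i - q i / θ) ≤ ∑ i ∈ S, g y i * pr μ K y i := by
        refine Finset.sum_le_sum fun i _ => ?_
        simp only [hg]
        split_ifs with h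
        · rw [one_mul]
          have : 0 ≤ q i / θ := div_nonneg (hq0 i) hθ0.le
          linarith
        · rw [zero_mul, sub_nonpos, le_div_iff₀ hθ0]
          push Not at h
          linarith
      have h4 : ∑ i ∈ S, g y i * pr μ K y i ≤ ∑ i, g y i * pr μ K y i :=
        Finset.sum_le_sum_of_subset_of_nonneg (Finset.subset_univ S) fun i _ _ =>
          mul_nonneg (hg0 y i) (pr_nonneg μ K y i)
      rw [Finset.sum_sub_distrib, ← Finset.sum_div] at h3
      have h5 : (∑ i ∈ S, q i) / θ ≤ c / 2 := by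
        rw [div_le_iff₀ hθ0]
        refine h2.trans (le_of_eq ?_)
        rw [hθ]
        field_simp
        norm_num
      linarith
    have h2 : ∫ y, G.indicator (fun _ => c / 2) y ∂ν ≤ ∫ y, ∑ i, g y i * pr μ K y i ∂ν := by
      refine integral_mono ((integrable_const _).indicator hG) igp fun y => ?_
      by_cases hy : y ∈ G
      · rw [Set.indicator_of_mem hy]
        exact h1 y hy
      · rw [Set.indicator_of_notMem hy]
        exact Finset.sum_nonneg fun i _ => mul_nonneg (hg0 y i) (pr_nonneg μ K y i)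
    rw [integral_indicator_const _ hG, smul_eq_mul] at h2
    nlinarith
  have hlog : 0 ≤ Real.log (1 / θ) := Real.log_nonneg (by
    rw [le_div_iff₀ hθ0]
    linarith)
  have e : 1 / θ = c * Lam / 4 := by
    rw [hθ]
    field_simp
  rw [e] at key hlog
  calc c / 4 * Real.log (c * Lam / 4)
      = Real.log (c * Lam / 4) * (c / 4) := mul_comm _ _
    _ ≤ _ := mul_le_mul_of_nonneg_left hP hlog
    _ ≤ _ := key

end Helper39.SAG
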