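import Pool.Agent.Helper39.SAG.Defs
import Pool.Agent.Helper75.AG.Radii

/-!
# Radius selection (owner: helper75, in `Helper75/AG/Radii.lean`; this file is the interface)
-/

set_option autoImplicit false
open MeasureTheory Filter Topology ProbabilityTheory

namespace Helper39.SAG

open Helper35.AG (Tor idx ent conv Inv)

/-- **Radius selection.** -/
theorem radii (m : ℕ) (hm : 1 ≤ m) (F : Finset Tor) (b : ℕ) :
    ∃ κ : ℝ, 0 < κ ∧ ∃ g : ℝ, 0 < g ∧ ∀ R : ℕ, ∃ η : ℝ, 0 < η ∧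
      ∀ (ν : Measure Tor) [IsProbabilityMeasure ν] (K : ℕ),
      (∀ i : ℕ, i + R ≤ K →
        ∃ w : ℂ, ν.real {y | κ < ‖fourier (m : ℤ) ((2 ^ i : ℕ) • y) - w‖} ≤ g) →
      (∀ x, ν.real (Metric.closedBall x (1 / 2 ^ K)) ≤ η) →
      ∃ z : Tor, ∃ j : ℕ, j + 1 ≤ K ∧
        1 / (8 * m) ≤ ν.real (Metric.closedBall z (1 / 2 ^ j)) ∧
        ν.real (⋃ f ∈ F, Metric.closedBall (z - f) (2 ^ b / 2 ^ j)) ≤ 1 / 4 := by
  obtain ⟨κ, hκ, g, hg, H⟩ := Helper75.AG.radii m hm F b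
  refine ⟨κ, hκ, g, hg, fun R => ?_⟩
  obtain ⟨η, hη, H⟩ := H (max R 1)
  refine ⟨η, hη, fun ν _ K h1 h2 => ?_⟩
  obtain ⟨z, j, hj, -, h3, h4⟩ := H ν K (fun i hi => h1 i (by omega)) h2
  exact ⟨z, j, by omega, h3, h4⟩

end Helper39.SAG
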