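import Pool.Agent.Helper39.SAG.Defs
import Pool.Agent.Helper25.AG.Zoom

/-!
# Zoom lemma (owner: helper25)
-/

set_option autoImplicit false
open MeasureTheory Filter Topology ProbabilityTheory

namespace Helper39.SAG

open Helper35.AG (Tor idx ent conv Inv)

/-- **Zoom.**  `E_A e(m 2^i y) μ̂(m) = ∫ ∫ e(m 2^i (x + y)) dμ dν_A` by invariance, and this changes by
at most `ξ + 4 π m 2 ^ (i - K)` when `ν` is restricted to `A` with mass at least `γ`.  Then the four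
half planes. -/
theorem zoom (m : ℕ) {κ ε : ℝ} (hκ : 0 < κ) (hε : 0 < ε) :
    ∃ R : ℕ, ∃ ξ : ℝ, 0 < ξ ∧ ∀ (μ ν : Measure Tor) [IsProbabilityMeasure μ]
      [IsProbabilityMeasure ν] (K : ℕ) (γ : ℝ), Inv μ →
      ε ≤ ‖∫ x, fourier (m : ℤ) x ∂μ‖ → Flat ν (pr μ K) γ ξ → ∀ i : ℕ, i + R ≤ K →
      ∃ w : ℂ, ν.real {y | κ < ‖fourier (m : ℤ) ((2 ^ i : ℕ) • y) - w‖} ≤ 4 * γ := by
  obtain ⟨R, hR⟩ := pow_unbounded_of_one_lt (4 * Real.pi * (m : ℝ) / (ε * κ / 8))
    (one_lt_two : (1 : ℝ) < 2)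
  have hεκ : 0 < ε * κ / 8 := by positivity
  refine ⟨R, min (ε * κ / 8) (1 / 2), lt_min hεκ (by norm_num), ?_⟩
  intro μ ν _ _ K γ hμ hm hF i hi
  have hγ : 0 < γ := by
    by_contra hγ
    have h1 := hF ∅ MeasurableSet.empty (by
      rw [measureReal_empty]
      exact not_lt.1 hγ)
    have h2 : ∑ i, |∫ y, pr μ K y i ∂(ν[|∅]) - ∫ y, pr μ K y i ∂ν| = 1 := by
      have e1 : ∀ i, |∫ y, pr μ K y i ∂(ν[|∅]) - ∫ y, pr μ K y i ∂ν| = ∫ y, pr μ K y i ∂ν := by
        intro i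
        rw [ProbabilityTheory.cond_empty, integral_zero_measure, zero_sub, abs_neg, abs_of_nonneg]
        exact integral_nonneg fun y => pr_nonneg μ K y i
      simp_rw [e1]
      rw [← integral_finsetSum]
      · simp_rw [pr_sum]
        simp
      · intro i _
        refine Integrable.of_bound (C := 1) (pr_meas μ K i).aestronglyMeasurable
          (Eventually.of_forall fun y => ?_)
        rw [Real.norm_eq_abs, abs_of_nonneg (pr_nonneg μ K y i)]
        exact pr_le_one μ K y i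
    rw [h2] at h1
    have h3 := min_le_right (ε * κ / 8) (1 / 2 : ℝ)
    linarith
  refine ⟨∫ y', (fourier (m : ℤ) ((2 ^ i : ℕ) • y') : ℂ) ∂ν, ?_⟩
  refine Helper25.AG.zoom hμ.two (m : ℤ) K i R hi ν γ (min (ε * κ / 8) (1 / 2)) κ hγ ?_ ?_
  · have h1 : 4 * Real.pi * |((m : ℤ) : ℝ)| / 2 ^ R < ε * κ / 8 := by
      rw [div_lt_iff₀ (by positivity)]
      rw [div_lt_iff₀ hεκ] at hR
      have : |((m : ℤ) : ℝ)| = (m : ℝ) := by
        rw [Int.cast_natCast]
        exact abs_of_nonneg (Nat.cast_nonneg m)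
      rw [this]
      linarith
    have h2 := min_le_left (ε * κ / 8) (1 / 2 : ℝ)
    have h3 : ε * (κ / 2) ≤ ‖∫ x, (fourier (m : ℤ) x : ℂ) ∂μ‖ * (κ / 2) :=
      mul_le_mul_of_nonneg_right hm (by positivity)
    have h4 : ε * (κ / 2) = 4 * (ε * κ / 8) := by ring
    linarith
  · intro A hA hgA
    refine le_trans (le_of_eq ?_) (hF A hA hgA)
    rw [Finset.sum_range]
    refine Finset.sum_congr rfl fun j _ => ?_
    rw [Helper25.AG.integral_cond, smul_eq_mul, inv_mul_eq_div]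
    rfl

end Helper39.SAG
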