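import Pool.Agent.Helper39.SAG.Decr
import Pool.Agent.Helper39.SAG.Zoom
import Pool.Agent.Helper39.SAG.Radii
import Pool.Agent.Helper39.SAG.End
import Pool.Agent.Helper75.AG.Trap

/-!
# The finite theorem (owner: helper39)
-/

set_option autoImplicit false
open MeasureTheory Filter Topology ProbabilityTheory

namespace Helper39.SAG

open Helper35.AG (Tor idx ent conv Inv)

theorem Flat.mono {Ω : Type} [MeasurableSpace Ω] {I : Type} [Fintype I] {ν : Measure Ω}
    {p : Ω → I → ℝ} {γ ξ ξ' : ℝ} (h : Flat ν p γ ξ) (hξ : ξ ≤ ξ') : Flat ν p γ ξ' :=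
  fun A hA hA' => (h A hA hA').trans hξ

theorem cond_le (ν : Measure Tor) [IsProbabilityMeasure ν] {B S : Set Tor} {θ : ℝ} (hθ : 0 < θ)
    (hB : MeasurableSet B) (hνB : θ ≤ ν.real B) : (ν[|B]).real S ≤ ν.real S / θ := by
  rw [measureReal_def, cond_apply hB, ENNReal.toReal_mul, ENNReal.toReal_inv, ← measureReal_def,
    ← measureReal_def, div_eq_inv_mul]
  have h1 : ν.real (B ∩ S) ≤ ν.real S := measureReal_mono Set.inter_subset_right
  have h2 : (ν.real B)⁻¹ ≤ θ⁻¹ := inv_anti₀ hθ hνB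
  exact mul_le_mul h2 h1 measureReal_nonneg (by positivity)

/-- **Core.**  The multiplicity `Lam` is chosen from `C` and `h`; then everything else. -/
theorem core (C : ℝ) {h : ℝ} (h1 : h < 1) :
    ∃ Lam : ℝ, 0 ≤ Lam ∧ ∀ (m : ℕ), 1 ≤ m → ∀ (ε : ℝ), 0 < ε → ∀ (F : Finset Tor) (B : ℝ), 0 < B →
      ∃ η : ℝ, 0 < η ∧ ∀ (μ ν : Measure Tor) [IsProbabilityMeasure μ] [IsProbabilityMeasure ν]
        (K : ℕ), Inv μ → ε ≤ ‖∫ x, fourier (m : ℤ) x ∂μ‖ →
        (∀ (t : Tor) (r : ℝ), 0 < r → ¬ Sep μ Lam h t r → ∃ f ∈ F, ‖t - f‖ ≤ B * r) →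
        (∀ i < 2 ^ K, ν.real {y | idx K y = i} ≤ η) →
        ¬ ent (conv μ ν) K ≤ ent μ K + C := by
  set c : ℝ := 1 - h with hc
  have hc0 : 0 < c := by rw [hc]; linarith
  set C' : ℝ := C + Real.log 2 with hC'
  set X : ℝ := max 0 (4 / c * (C' + 1 + Real.log 2)) + 1 with hX
  have hX0 : 0 ≤ X := by
    have := le_max_left 0 (4 / c * (C' + 1 + Real.log 2))
    rw [hX]
    linarith
  have hX1 : 4 / c * (C' + 1 + Real.log 2) < X := by
    have := le_max_right 0 (4 / c * (C' + 1 + Real.log 2))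
    rw [hX]
    linarith
  set Lam : ℝ := 4 / c * Real.exp X with hLam
  have hLam0 : 0 < Lam := by positivity
  have hcL : c * Lam / 4 = Real.exp X := by
    rw [hLam]
    field_simp
  have h4 : 4 ≤ c * Lam := by
    have h5 := Real.one_le_exp hX0
    linarith
  refine ⟨Lam, hLam0.le, fun m hm ε hε F B hB => ?_⟩
  have hm0 : (0 : ℝ) < m := by exact_mod_cast hm
  obtain ⟨b, hb⟩ : ∃ b : ℕ, 2 * B ≤ 2 ^ b := by
    obtain ⟨b, hb⟩ := pow_unbounded_of_one_lt (2 * B) (one_lt_two : (1 : ℝ) < 2)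
    exact ⟨b, hb.le⟩
  obtain ⟨κ, hκ, g, hg, hrad⟩ := radii m hm F b
  obtain ⟨R, ξz, hξz, hzoom⟩ := zoom m hκ hε
  obtain ⟨η0, hη0, hrad⟩ := hrad R
  set ξ : ℝ := min ξz (1 / Lam) with hξ
  have hξ0 : 0 < ξ := lt_min hξz (by positivity)
  set γ : ℝ := min (g / 4) (1 / (8 * m)) with hγ
  have hγ0 : 0 < γ := lt_min (by positivity) (by positivity)
  obtain ⟨θ, hθ, hdecr⟩ := decr C' hγ0 hξ0
  refine ⟨θ * η0 / 4, by positivity, fun μ ν _ _ K hi hme hsep hcell hent => ?_⟩
  obtain ⟨B0, hB0, hθB, hJ, hF⟩ := hdecr ν (pr μ K) (pr_meas μ K) (pr_nonneg μ K) (pr_sum μ K)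
    (inf_le μ ν K C hent)
  have hνB : ν B0 ≠ 0 := by
    intro h0
    have : ν.real B0 = 0 := by rw [measureReal_def, h0]; rfl
    linarith
  have hpr : IsProbabilityMeasure (ν[|B0]) := cond_isProbabilityMeasure hνB
  set ν' : Measure Tor := ν[|B0] with hν'
  have hz : ∀ i : ℕ, i + R ≤ K →
      ∃ w : ℂ, ν'.real {y | κ < ‖fourier (m : ℤ) ((2 ^ i : ℕ) • y) - w‖} ≤ g := by
    intro i hiR
    obtain ⟨w, hw⟩ := hzoom μ ν' K γ hi hme (hF.mono (min_le_left _ _)) i hiR
    refine ⟨w, hw.trans ?_⟩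
    have : γ ≤ g / 4 := min_le_left _ _
    linarith
  have hball : ∀ x, ν'.real (Metric.closedBall x (1 / 2 ^ K)) ≤ η0 := by
    intro x
    by_contra hcon
    push Not at hcon
    obtain ⟨i, hi2, hi3⟩ := Helper75.AG.cell_of_ball (ν := ν') x le_rfl
    have h5 := cond_le ν (S := {z | idx K z = i}) hθ hB0 hθB
    have h6 := hcell i hi2
    have h7 : ν.real {z | idx K z = i} / θ ≤ η0 / 4 := by
      rw [div_le_iff₀ hθ]
      linarith
    linarith
  obtain ⟨z, j, hjK, hA, hU⟩ := hrad ν' K hz hball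
  set U : Set Tor := ⋃ f ∈ F, Metric.closedBall (z - f) (2 ^ b / 2 ^ j) with hUdef
  have hUm : MeasurableSet U :=
    F.measurableSet_biUnion fun f _ => Metric.isClosed_closedBall.measurableSet
  have h2j : (0 : ℝ) < 2 ^ j := by positivity
  have hjK' : (1 : ℝ) / 2 ^ K ≤ 1 / 2 ^ j :=
    one_div_le_one_div_of_le h2j (pow_le_pow_right₀ (by norm_num) (by omega))
  have hstep := step5 μ ν' K (C := C' + 1) (c := c) (Lam := Lam) (γ := γ) (ξ := ξ) hc0 h4 hJ hF
    (min_le_right _ _) (A := Metric.closedBall z (1 / 2 ^ j)) (G := Uᶜ)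
    Metric.isClosed_closedBall.measurableSet hγ0 ((min_le_right _ _).trans hA) hUm.compl
    (by
      have := probReal_compl_eq_one_sub (μ := ν') hUm
      linarith)
    (by
      intro y hy
      have hs : Sep μ Lam h (z - y) (2 / 2 ^ j) := by
        by_contra hns
        obtain ⟨f, hf, hle⟩ := hsep (z - y) (2 / 2 ^ j) (by positivity) hns
        apply hy
        rw [hUdef, Set.mem_iUnion₂]
        refine ⟨f, hf, ?_⟩
        rw [Metric.mem_closedBall, dist_comm, dist_eq_norm]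
        have e : z - f - y = z - y - f := by abel
        rw [e]
        refine hle.trans ?_
        rw [mul_div_assoc', div_le_div_iff_of_pos_right h2j]
        linarith
      exact cells_of_sep μ K hLam0 h1.le hs (by
        have : (2 : ℝ) / 2 ^ j = 1 / 2 ^ j + 1 / 2 ^ j := by ring
        linarith))
  rw [hcL, Real.log_exp] at hstep
  have h9 : C' + 1 + Real.log 2 < c / 4 * X := by
    have h10 := mul_lt_mul_of_pos_left hX1 (show 0 < c / 4 by positivity)
    have e : c / 4 * (4 / c * (C' + 1 + Real.log 2)) = C' + 1 + Real.log 2 := by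
      field_simp
    rw [e] at h10
    exact h10
  linarith

end Helper39.SAG
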