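import Pool.Agent.Helper39.SAG.Defs
import Pool.Agent.Helper97.SAG.Decr

/-!
# Information decrement (owner: helper97)
-/

set_option autoImplicit false
open MeasureTheory Filter Topology ProbabilityTheory

namespace Helper39.SAG

/-- **Decrement.** A family of bounded information is flat after restriction of `ν` to a set of
mass bounded below.  Any proof: iterate, or take `B` with `inf (ν[|B])` within `τ ≤ 1` of the infimum
over the sets of mass at least `a ^ k`. -/
theorem decr (C : ℝ) {γ ξ : ℝ} (hγ : 0 < γ) (hξ : 0 < ξ) :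
    ∃ θ : ℝ, 0 < θ ∧ ∀ {Ω : Type} [MeasurableSpace Ω] {I : Type} [Fintype I]
      (ν : Measure Ω) [IsProbabilityMeasure ν] (p : Ω → I → ℝ),
      (∀ i, Measurable fun y => p y i) → (∀ y i, 0 ≤ p y i) → (∀ y, ∑ i, p y i = 1) →
      inf ν p ≤ C → ∃ B : Set Ω, MeasurableSet B ∧ θ ≤ ν.real B ∧
        inf (ν[|B]) p ≤ C + 1 ∧ Flat (ν[|B]) p γ ξ := by
  obtain ⟨θ, h0, h⟩ := Pool.Agent.Helper97.SAG.decrement C hγ hξ
  refine ⟨θ, h0, ?_⟩
  intro Ω _ I _ ν _ p hm hn hs hinf
  exact h ν p ⟨hm, hn, hs⟩ hinf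

end Helper39.SAG
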