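import Mathlib
import Pool.Agent.Helper35.AG.Ent

/-!
# Strong additive growth: definitions

`info ν p` is the mutual information of `y ~ ν` and an index with law `p y`; `pr μ K y` is the
vector of the masses of the dyadic cells of level `K` for the translate of `μ` by `y`;
`Flat ν p γ ξ`: restricting `ν` to a set of mass at least `γ` moves the mean of `p` by at most `ξ`
in total variation.  `Sep μ Lam h t r`: some closed set has mass more than `1 - h` and its
translate by `-t`, thickened by `r`, has small mass.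
-/

set_option autoImplicit false
open MeasureTheory Filter Topology ProbabilityTheory

namespace Helper39.SAG

open Helper35.AG (Tor idx ent conv Inv)

/-- mutual information of `y ~ ν` and an index with law `p y` -/
noncomputable def inf {Ω : Type} [MeasurableSpace Ω] {I : Type} [Fintype I] (ν : Measure Ω)
    (p : Ω → I → ℝ) : ℝ :=
  ∑ i, Real.negMulLog (∫ y, p y i ∂ν) - ∫ y, ∑ i, Real.negMulLog (p y i) ∂ν

/-- flatness -/
def Flat {Ω : Type} [MeasurableSpace Ω] {I : Type} [Fintype I] (ν : Measure Ω)
    (p : Ω → I → ℝ) (γ ξ : ℝ) : Prop :=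
  ∀ A : Set Ω, MeasurableSet A → γ ≤ ν.real A →
    ∑ i, |∫ y, p y i ∂(ν[|A]) - ∫ y, p y i ∂ν| ≤ ξ

/-- masses of the cells of level `K` for the translate of `μ` by `y` -/
noncomputable def pr (μ : Measure Tor) (K : ℕ) (y : Tor) (i : Fin (2 ^ K)) : ℝ :=
  μ.real {x | idx K (x + y) = i}

/-- a closed set of mass more than `1 - h` whose translate has small mass -/
def Sep (μ : Measure Tor) (Lam h : ℝ) (t : Tor) (r : ℝ) : Prop :=
  ∃ E : Set Tor, IsClosed E ∧
    μ.real Eᶜ + Lam * μ.real (Metric.cthickening r ((fun x => x - t) '' E)) < h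

theorem pr_meas (μ : Measure Tor) [IsProbabilityMeasure μ] (K : ℕ) (i : Fin (2 ^ K)) :
    Measurable fun y => pr μ K y i :=
  Helper35.AG.measurable_real μ (Helper35.AG.measurableSet_idx K i)

theorem pr_nonneg (μ : Measure Tor) (K : ℕ) (y : Tor) (i : Fin (2 ^ K)) : 0 ≤ pr μ K y i :=
  measureReal_nonneg

theorem pr_sum (μ : Measure Tor) [IsProbabilityMeasure μ] (K : ℕ) (y : Tor) :
    ∑ i, pr μ K y i = 1 := by
  have := Helper35.AG.sum_shift μ K y
  rw [Finset.sum_range] at this
  exact this

theorem pr_le_one (μ : Measure Tor) [IsProbabilityMeasure μ] (K : ℕ) (y : Tor)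
    (i : Fin (2 ^ K)) : pr μ K y i ≤ 1 :=
  measureReal_le_one

/-- bounded growth bounds the information -/
theorem inf_le (μ ν : Measure Tor) [IsProbabilityMeasure μ] [IsProbabilityMeasure ν] (K : ℕ)
    (C : ℝ) (h : ent (conv μ ν) K ≤ ent μ K + C) : inf ν (pr μ K) ≤ C + Real.log 2 :=
  Helper35.AG.info_hyp μ ν K C h

end Helper39.SAG
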